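import Pool.Agent.Q175.PG.Maker

/-!
# There is no zero-one law for Maker-Breaker percolation games

There is a tree (infinite, connected, all degrees at most `5`) on which Breaker wins the
`(6, 2)`-percolation game from every root, but not from every root with every finite head start of
Maker. The tree has branching vertices of degree `5`, neighbouring branching vertices are connected
by paths of length `7`.
-/

namespace Pool.Agent.Results.MP_aefbf4_co.NoZeroOneLaw

open Finset Pool.Agent.Q175.PG

lemma step_symm {a b : Option Ed} (h : Step ends ∅ a b) : Step ends ∅ b a := by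
  obtain ⟨x, hx, h⟩ := h
  exact ⟨x, hx, h.trans Sym2.eq_swap⟩

lemma step_par (x : Ed) : Step ends ∅ (some x) (par x) := ⟨x, notMem_empty x, rfl⟩

lemma par_measure {x y : Ed} (h : par x = some y) :
    7 * y.1.length + (6 - y.2.val) < 7 * x.1.length + (6 - x.2.val) := by
  obtain ⟨v, j⟩ := x
  by_cases hj : j.val < 6
  · rw [par_lt v j hj, Option.some.injEq] at h
    subst h
    simp only
    omega
  · obtain rfl := Dart.fin_six hj
    cases v with
    | nil => rw [par_nil] at h; exact absurd h (by simp)
    | cons i w =>
      rw [par_cons, Option.some.injEq] at h
      subst h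
      simp only [List.length_cons, Fin.val_zero]
      omega

lemma to_top (n : ℕ) : ∀ x : Ed, 7 * x.1.length + (6 - x.2.val) ≤ n →
    Relation.ReflTransGen (Step ends ∅) (some x) none := by
  induction n with
  | zero =>
    intro x hx
    cases hp : par x with
    | none => exact Relation.ReflTransGen.single (hp ▸ step_par x)
    | some y => have := par_measure hp; omega
  | succ n ih =>
    intro x hx
    cases hp : par x with
    | none => exact Relation.ReflTransGen.single (hp ▸ step_par x)
    | some y =>
      have h1 := par_measure hp
      exact Relation.ReflTransGen.head (hp ▸ step_par x) (ih y (by omega))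

lemma top_conn (a : Option Ed) : Relation.ReflTransGen (Step ends ∅) a none := by
  cases a with
  | none => exact Relation.ReflTransGen.refl
  | some x => exact to_top _ x le_rfl

lemma symm_conn {a b : Option Ed} (h : Relation.ReflTransGen (Step ends ∅) a b) :
    Relation.ReflTransGen (Step ends ∅) b a := by
  induction h with
  | refl => exact Relation.ReflTransGen.refl
  | tail _ hs ih => exact Relation.ReflTransGen.head (step_symm hs) ih

lemma conn (a b : Option Ed) : b ∈ comp ends ∅ a :=
  (top_conn a).trans (symm_conn (top_conn b))

lemma ends_injective : Function.Injective ends := by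
  intro x y h
  unfold ends at h
  rw [Sym2.eq_iff] at h
  rcases h with ⟨h, _⟩ | ⟨h1, h2⟩
  · exact Option.some.inj h
  · have e1 := par_measure h1.symm
    have e2 := par_measure h2
    omega

lemma no_loop (x : Ed) : ¬ (ends x).IsDiag := by
  unfold ends
  rw [Sym2.mk_isDiag_iff]
  intro h
  have := par_measure h.symm
  omega

lemma degree_le (a : Option Ed) : {x | a ∈ ends x}.encard ≤ 5 := by
  cases a with
  | none =>
    have h : {x | (none : Option Ed) ∈ ends x} ⊆ {([], 6)} := by
      intro x hx
      have hx' : none ∈ s(some x, par x) := hx
      rw [Sym2.mem_iff] at hx'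
      rcases hx' with h | h
      · exact absurd h (by simp)
      · obtain ⟨v, j⟩ := x
        by_cases hj : j.val < 6
        · rw [par_lt v j hj] at h
          exact absurd h (by simp)
        · obtain rfl := Dart.fin_six hj
          cases v with
          | nil => rfl
          | cons i w => rw [par_cons] at h; exact absurd h (by simp)
    refine (Set.encard_le_encard h).trans ?_
    rw [Set.encard_singleton]
    norm_num
  | some y =>
    set T : Finset Ed := insert y ((Dart.dn y).succ.image Dart.edge) with hT
    have h : {x | (some y : Option Ed) ∈ ends x} ⊆ (T : Set Ed) := by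
      intro x hx
      have hx' : some y ∈ s(some x, par x) := hx
      rw [Sym2.mem_iff] at hx'
      rw [hT, mem_coe, mem_insert, mem_image]
      rcases hx' with h | h
      · exact Or.inl (Option.some.inj h).symm
      · exact Or.inr ⟨Dart.dn x, Dart.succ_dn h.symm, rfl⟩
    refine (Set.encard_le_encard h).trans ?_
    rw [Set.encard_coe_eq_coe_finsetCard]
    have h4 : (Dart.dn y).succ.card ≤ 4 := by
      rcases Nat.lt_or_ge (Dart.dn y).off 6 with ho | ho
      · exact (Dart.succ_small _ ho).1.trans (by norm_num)
      · exact (Dart.succ_big _ (le_antisymm (Dart.off_le _) ho)).1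
    have h5 : T.card ≤ 5 := by
      rw [hT]
      exact (card_insert_le _ _).trans (Nat.succ_le_succ (card_image_le.trans h4))
    exact_mod_cast h5

/-- **Negative answer to Q1.** There is an infinite connected graph (a multigraph, with the set of
vertices `V`, the set of edges `E` and the end vertices `ends`, which has neither loops nor parallel
edges and has degrees at most `5`) such that Breaker can win the `(6, 2)`-percolation game from
every root, but for some root `v` and some finite set `F` of edges he cannot win the
`(6, 2)`-percolation game with the head start `F` of Maker. -/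
theorem result : ∃ (V E : Type) (_ : DecidableEq E) (ends : E → Sym2 V),
    Infinite V ∧ (∀ a b, b ∈ comp ends ∅ a) ∧ Function.Injective ends ∧
    (∀ x, ¬ (ends x).IsDiag) ∧ (∀ a, {x | a ∈ ends x}.encard ≤ 5) ∧
    (∀ v, BreakerWins ends 6 2 v ∅ ∅) ∧ ∃ v F, ¬ BreakerWins ends 6 2 v F ∅ :=
  ⟨Option Ed, Ed, inferInstance, ends, inferInstance, conn, ends_injective, no_loop, degree_le,
    breaker_wins, _, _, maker_survives⟩

end Pool.Agent.Results.MP_aefbf4_co.NoZeroOneLaw
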